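import Pool.Agent.W128.VA.Stm

/-!
# VA-REC: the reconstruction theorem (assembly)
-/

set_option autoImplicit false

namespace Pool.Agent.W959.VA.REC

open Finset Pool.Agent.W128.VA

theorem cf_neg_two (j : ℕ) : cf (-2) j = (j : ℂ) + 1 := by
  unfold cf
  rw [Ring.choose_neg' (2 : ℤ) j, Ring.multichoose_two]
  rcases Int.even_or_odd (j : ℤ) with h | h
  · rw [Int.negOnePow_even _ h]
    have h' : Even j := by exact_mod_cast h
    rw [h'.neg_one_pow]
    simp
  · rw [Int.negOnePow_odd _ h]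
    have h' : Odd j := by exact_mod_cast h
    rw [h'.neg_one_pow]
    simp
    ring

section
variable {V : Type} [AddCommGroup V] [Module ℂ V]

/-- the fields generated by `G` -/
inductive Gen (G : Set (Fld V)) : (ℤ → Module.End ℂ V) → Prop
  | base (a : Fld V) (ha : a ∈ G) : Gen G a.m
  | id : Gen G (idF : Fld V).m
  | zero : Gen G 0
  | add {a b : ℤ → Module.End ℂ V} : Gen G a → Gen G b → Gen G (a + b)
  | smul (c : ℂ) {a : ℤ → Module.End ℂ V} : Gen G a → Gen G (c • a)
  | pr (k : ℤ) (a : Fld V) (ha : a ∈ G) (b : Fld V) : Gen G b.m → Gen G (prod k a b).m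

theorem Gen.trunc {G : Set (Fld V)} {x : ℤ → Module.End ℂ V} (h : Gen G x) :
    ∀ w, ∃ N : ℤ, ∀ n, N ≤ n → x n w = 0 := by
  induction h with
  | base a ha => exact a.tr
  | id => exact (idF : Fld V).tr
  | zero => exact fun w => ⟨0, fun n _ => by simp⟩
  | add _ _ iha ihb =>
    intro w
    obtain ⟨N1, h1⟩ := iha w
    obtain ⟨N2, h2⟩ := ihb w
    refine ⟨max N1 N2, fun n hn => ?_⟩
    simp [h1 n ((le_max_left _ _).trans hn), h2 n ((le_max_right _ _).trans hn)]
  | smul c _ iha =>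
    intro w
    obtain ⟨N1, h1⟩ := iha w
    exact ⟨N1, fun n hn => by simp [h1 n hn]⟩
  | pr k a ha b _ _ => exact (prod k a b).tr

theorem Gen.mloc1 (hD : S_DONG) (hL : S_LIN) {G : Set (Fld V)}
    (hG : ∀ a ∈ G, ∀ b ∈ G, MLoc a.m b.m)
    {x : ℤ → Module.End ℂ V} (h : Gen G x) : ∀ c ∈ G, MLoc x c.m := by
  induction h with
  | base a ha => exact fun c hc => hG a ha c hc
  | id => exact fun c _ => (hL V 0 0 c.m).2.2.2.2
  | zero => exact fun c _ => (hL V 0 0 c.m).2.2.2.1
  | @add a b _ _ iha ihb => exact fun c hc => (hL V a b c.m).2.1 (iha c hc) (ihb c hc)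
  | @smul t a _ iha => exact fun c hc => (hL V a a c.m).2.2.1 t (iha c hc)
  | pr k a ha b _ ihb =>
    exact fun c hc => hD V a b c ((hL V b.m a.m 0).1 (ihb a ha)) (hG a ha c hc) (ihb c hc) k

theorem Gen.mloc (hD : S_DONG) (hL : S_LIN) {G : Set (Fld V)}
    (hG : ∀ a ∈ G, ∀ b ∈ G, MLoc a.m b.m)
    {x : ℤ → Module.End ℂ V} (h : Gen G x) (c : Fld V) (hc : Gen G c.m) : MLoc x c.m := by
  induction h with
  | base a ha => exact (hL V c.m a.m 0).1 (hc.mloc1 hD hL hG a ha)
  | id => exact (hL V 0 0 c.m).2.2.2.2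
  | zero => exact (hL V 0 0 c.m).2.2.2.1
  | @add a b _ _ iha ihb => exact (hL V a b c.m).2.1 iha ihb
  | @smul t a _ iha => exact (hL V a a c.m).2.2.1 t iha
  | pr k a ha b hb ihb =>
    exact hD V a b c ((hL V b.m a.m 0).1 (hb.mloc1 hD hL hG a ha))
      ((hL V c.m a.m 0).1 (hc.mloc1 hD hL hG a ha)) ihb k

theorem TCov.add {T : Module.End ℂ V} {a b : ℤ → Module.End ℂ V} (ha : TCov T a)
    (hb : TCov T b) : TCov T (a + b) := by
  intro n w
  have h1 := ha n w
  have h2 := hb n w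
  simp only [Pi.add_apply, LinearMap.add_apply, map_add, smul_add]
  rw [← h1, ← h2]
  abel

theorem TCov.smul {T : Module.End ℂ V} {a : ℤ → Module.End ℂ V} (c : ℂ) (ha : TCov T a) :
    TCov T (c • a) := by
  intro n w
  have h1 := ha n w
  simp only [Pi.smul_apply, LinearMap.smul_apply, map_smul]
  rw [← smul_sub, h1, smul_comm]

theorem TCov.zero (T : Module.End ℂ V) : TCov T (0 : ℤ → Module.End ℂ V) := by
  intro n w
  simp

theorem TCov.idF (T : Module.End ℂ V) : TCov T (idF : Fld V).m := by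
  intro n w
  by_cases h : n = 0
  · subst h
    simp [Pool.Agent.W128.VA.idF]
  · have h' : n - 1 ≠ -1 := by omega
    by_cases h1 : n = -1
    · subst h1
      simp [Pool.Agent.W128.VA.idF]
    · simp [Pool.Agent.W128.VA.idF, h1, h']

theorem Gen.tcov (hT : S_TCOV) {G : Set (Fld V)} {T : Module.End ℂ V}
    (hG : ∀ a ∈ G, TCov T a.m) {x : ℤ → Module.End ℂ V} (h : Gen G x) : TCov T x := by
  induction h with
  | base a ha => exact hG a ha
  | id => exact TCov.idF T
  | zero => exact TCov.zero T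
  | add _ _ iha ihb => exact TCov.add iha ihb
  | smul c _ iha => exact TCov.smul c iha
  | pr k a ha b _ ihb => exact hT V T a b (hG a ha) ihb k

theorem Gen.cre (hC : S_CRE) {G : Set (Fld V)} {one : V}
    (hG : ∀ a ∈ G, ∀ n : ℤ, 0 ≤ n → a.m n one = 0) {x : ℤ → Module.End ℂ V} (h : Gen G x) :
    ∀ n : ℤ, 0 ≤ n → x n one = 0 := by
  induction h with
  | base a ha => exact hG a ha
  | id =>
    intro n hn
    have : n ≠ -1 := by omega
    simp [Pool.Agent.W128.VA.idF, this]
  | zero => exact fun n _ => by simp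
  | add _ _ iha ihb => exact fun n hn => by simp [iha n hn, ihb n hn]
  | smul c _ iha => exact fun n hn => by simp [iha n hn]
  | pr k a ha b _ ihb => exact (hC V one a b (hG a ha) ihb k).1

theorem main_aux (hBI : S_BI) (hD : S_DONG) (hL : S_LIN) (hT : S_TCOV) (hC : S_CRE)
    (hGo : S_GOD) (one : V) (T : Module.End ℂ V) (G : Set (Fld V)) (hT1 : T one = 0)
    (hG : ∀ a ∈ G, TCov T a.m ∧ ∀ n : ℤ, 0 ≤ n → a.m n one = 0)
    (hloc : ∀ a ∈ G, ∀ b ∈ G, MLoc a.m b.m)
    (hgen : ∀ U : Submodule ℂ V, one ∈ U → (∀ a ∈ G, ∀ (n : ℤ), ∀ v ∈ U, a.m n v ∈ U) → U = ⊤) :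
    ∃ Y : V →ₗ[ℂ] (ℤ → Module.End ℂ V),
      (∀ a ∈ G, Y (a.m (-1) one) = a.m) ∧
      (∀ u v, ∃ N : ℤ, ∀ n, N ≤ n → Y u n v = 0) ∧
      (∀ (n : ℤ) (v : V), Y one n v = if n = -1 then v else 0) ∧
      (∀ u, Y u (-1) one = u) ∧ (∀ (u : V) (n : ℤ), 0 ≤ n → Y u n one = 0) ∧
      (∀ u, TCov T (Y u)) ∧ (∀ (u : V) (n : ℤ), Y (T u) n = (-(n : ℂ)) • Y u (n - 1)) ∧
      BIY Y := by
  classical
  have hGt : ∀ a ∈ G, TCov T a.m := fun a ha => (hG a ha).1
  have hGc : ∀ a ∈ G, ∀ n : ℤ, 0 ≤ n → a.m n one = 0 := fun a ha => (hG a ha).2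
  -- every vector is a value
  have hex : ∀ v : V, ∃ x, Gen G x ∧ x (-1) one = v := by
    let U : Submodule ℂ V :=
      { carrier := {v | ∃ x, Gen G x ∧ x (-1) one = v}
        zero_mem' := ⟨0, Gen.zero, by simp⟩
        add_mem' := by
          rintro u v ⟨x, hx, rfl⟩ ⟨y, hy, rfl⟩
          exact ⟨x + y, Gen.add hx hy, by simp⟩
        smul_mem' := by
          rintro c u ⟨x, hx, rfl⟩
          exact ⟨c • x, Gen.smul c hx, by simp⟩ }
    have hU : U = ⊤ := by
      refine hgen U ⟨_, Gen.id, by simp [Pool.Agent.W128.VA.idF]⟩ ?_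
      rintro a ha n v ⟨x, hx, rfl⟩
      refine ⟨(prod n a ⟨x, hx.trunc⟩).m, Gen.pr n a ha ⟨x, hx.trunc⟩ hx, ?_⟩
      exact (hC V one a ⟨x, hx.trunc⟩ (hGc a ha) (hx.cre hC hGc) n).2
    intro v
    have : v ∈ U := by rw [hU]; trivial
    exact this
  -- uniqueness
  have huniq0 : ∀ x : ℤ → Module.End ℂ V, TCov T x → (∀ n : ℤ, 0 ≤ n → x n one = 0) →
      x (-1) one = 0 → (∀ y : Fld V, Gen G y.m → MLoc x y.m) → x = 0 := by
    intro x h1 h2 h3 h4
    funext n
    ext v
    obtain ⟨y, hy, rfl⟩ := hex v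
    exact hGo V one T x y hT1 h1 h2 h3 (hy.cre hC hGc) (h4 ⟨y, hy.trunc⟩ hy) n
  have huniq : ∀ x y : ℤ → Module.End ℂ V, TCov T x → TCov T y →
      (∀ n : ℤ, 0 ≤ n → x n one = 0) → (∀ n : ℤ, 0 ≤ n → y n one = 0) →
      x (-1) one = y (-1) one → (∀ z : Fld V, Gen G z.m → MLoc x z.m) →
      (∀ z : Fld V, Gen G z.m → MLoc y z.m) → x = y := by
    intro x y h1 h2 h3 h4 h5 h6 h7
    have := huniq0 (x + (-1 : ℂ) • y) (TCov.add h1 (TCov.smul _ h2))
      (fun n hn => by simp [h3 n hn, h4 n hn]) (by simp [h5])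
      (fun z hz => (hL V _ _ z.m).2.1 (h6 z hz) ((hL V y y z.m).2.2.1 _ (h7 z hz)))
    rw [neg_one_smul, ← sub_eq_add_neg, sub_eq_zero] at this
    exact this
  choose F hF1 hF2 using hex
  have hFT : ∀ u, TCov T (F u) := fun u => (hF1 u).tcov hT hGt
  have hFC : ∀ u, ∀ n : ℤ, 0 ≤ n → F u n one = 0 := fun u => (hF1 u).cre hC hGc
  have hFL : ∀ u, ∀ z : Fld V, Gen G z.m → MLoc (F u) z.m :=
    fun u z hz => (hF1 u).mloc hD hL hloc z hz
  -- key: recognise `F`
  have key : ∀ (u : V) (x : ℤ → Module.End ℂ V), TCov T x → (∀ n : ℤ, 0 ≤ n → x n one = 0) →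
      x (-1) one = u → (∀ z : Fld V, Gen G z.m → MLoc x z.m) → F u = x := by
    intro u x h1 h2 h3 h4
    exact huniq (F u) x (hFT u) h1 (hFC u) h2 (by rw [hF2, h3]) (hFL u) h4
  have keyG : ∀ (u : V) (x : ℤ → Module.End ℂ V), Gen G x → x (-1) one = u → F u = x := by
    intro u x h1 h3
    exact key u x (h1.tcov hT hGt) (h1.cre hC hGc) h3 fun z hz => h1.mloc hD hL hloc z hz
  let Y : V →ₗ[ℂ] (ℤ → Module.End ℂ V) :=
    { toFun := F
      map_add' := fun u v => keyG _ _ (Gen.add (hF1 u) (hF1 v)) (by simp [hF2])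
      map_smul' := fun c u => keyG _ _ (Gen.smul c (hF1 u)) (by simp [hF2]) }
  have hYF : ∀ u, Y u = F u := fun _ => rfl
  let fl : V → Fld V := fun u => ⟨F u, (hF1 u).trunc⟩
  have hone : F one = (idF : Fld V).m := keyG _ _ Gen.id (by simp [Pool.Agent.W128.VA.idF])
  -- the products
  have hprod : ∀ (u v : V) (k : ℤ), F (F u k v) = (prod k (fl u) (fl v)).m := by
    intro u v k
    have hc := hC V one (fl u) (fl v) (hFC u) (hFC v) k
    refine key _ _ (hT V T (fl u) (fl v) (hFT u) (hFT v) k) hc.1 ?_ ?_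
    · rw [hc.2]
      change F u k (F v (-1) one) = _
      rw [hF2]
    · intro z hz
      exact hD V (fl u) (fl v) z ((hF1 u).mloc hD hL hloc (fl v) (hF1 v)) (hFL u z hz)
        (hFL v z hz) k
  refine ⟨Y, ?_, ?_, ?_, ?_, ?_, ?_, ?_, ?_⟩
  · intro a ha
    exact keyG _ _ (Gen.base a ha) rfl
  · exact fun u => (hF1 u).trunc
  · intro n v
    rw [hYF, hone]
    by_cases h : n = -1
    · subst h
      simp [Pool.Agent.W128.VA.idF]
    · simp [Pool.Agent.W128.VA.idF, h]
  · exact hF2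
  · exact hFC
  · exact hFT
  · intro u n
    rw [hYF, hYF]
    have h1 : T u = F u (-2) one := by
      have h2 := hFT u (-1) one
      rw [hT1, map_zero, sub_zero, hF2] at h2
      rw [h2]
      norm_num
    rw [h1, hprod, show ((-2 : ℤ)) = -2 from rfl]
    have hfl1 : (fl one).m = (idF : Fld V).m := hone
    ext w
    change R (fl u) (fl one) (-2) 0 n w = (-(n : ℂ)) • F u (n - 1) w
    obtain ⟨N, hN⟩ := (fl u).tr w
    rw [R_apply' (fl u) (fl one) (-2) 0 n w (N.toNat + (0 - n).toNat)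
      (fun j hj => by
        rw [hfl1]
        have : n + (j : ℤ) ≠ -1 := by omega
        simp [Pool.Agent.W128.VA.idF, this])
      (fun j hj => hN _ (by omega))]
    have htm : ∀ j : ℕ, tm (fl u).m (fl one).m (-2) 0 n j w
        = if ((j : ℤ) = -1 - n ∨ (j : ℤ) = n - 1) then (-(n : ℂ)) • F u (n - 1) w else 0 := by
      intro j
      unfold tm
      rw [hfl1, cf_neg_two]
      change ((j : ℂ) + 1) • (F u (0 + -2 - j) ((idF : Fld V).m (n + j) w)
        - ((-1 : ℂ) ^ (-2 : ℤ)) • (idF : Fld V).m (n + -2 - j) (F u (0 + j) w)) = _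
      by_cases h1 : (j : ℤ) = -1 - n
      · have e1 : n = -1 - j := by omega
        have e2 : n + (j : ℤ) = -1 := by omega
        have e3 : ¬ (n + -2 - (j : ℤ) = -1) := by omega
        have e4 : (0 : ℤ) + -2 - j = n - 1 := by omega
        rw [if_pos (Or.inl h1), e4]
        simp only [Pool.Agent.W128.VA.idF, e2, e3, if_true, if_false, LinearMap.id_apply,
          LinearMap.zero_apply, smul_zero, sub_zero]
        congr 1
        have : (n : ℂ) = -1 - (j : ℂ) := by exact_mod_cast congrArg (Int.cast : ℤ → ℂ) e1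
        rw [this]
        ring
      · have e2 : ¬ (n + (j : ℤ) = -1) := by omega
        by_cases h2 : (j : ℤ) = n - 1
        · have e3 : n + -2 - (j : ℤ) = -1 := by omega
          have e4 : (0 : ℤ) + j = n - 1 := by omega
          have e1 : n = 1 + j := by omega
          rw [if_pos (Or.inr h2), e4]
          simp only [Pool.Agent.W128.VA.idF, e2, e3, if_true, if_false, LinearMap.id_apply,
            LinearMap.zero_apply, map_zero, zero_sub]
          rw [show ((-1 : ℂ) ^ (-2 : ℤ)) = 1 by norm_num, one_smul, smul_neg, neg_smul]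
          congr 2
          have : (n : ℂ) = 1 + (j : ℂ) := by exact_mod_cast congrArg (Int.cast : ℤ → ℂ) e1
          rw [this]
          ring
        · have e3 : ¬ (n + -2 - (j : ℤ) = -1) := by omega
          rw [if_neg (by tauto)]
          simp only [Pool.Agent.W128.VA.idF, e2, e3, if_false, LinearMap.zero_apply, map_zero,
            smul_zero, sub_zero]
    simp only [htm]
    rcases lt_trichotomy n 0 with hn | hn | hn
    · rw [Finset.sum_eq_single (-1 - n).toNat]
      · rw [if_pos (Or.inl (by omega))]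
      · intro j _ hj
        rw [if_neg (by omega)]
      · intro hj
        exact absurd (Finset.mem_range.2 (by omega)) hj
    · subst hn
      simp
    · rw [Finset.sum_eq_single (n - 1).toNat]
      · rw [if_pos (Or.inr (by omega))]
      · intro j _ hj
        rw [if_neg (by omega)]
      · intro hj
        have h5 : N ≤ n - 1 := by
          by_contra hlt
          exact hj (Finset.mem_range.2 (by omega))
        have h6 : F u (n - 1) w = 0 := hN _ h5
        rw [h6, smul_zero, ite_self]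
  · intro u v w k m n L h1 h2 h3
    have hab : MLoc (fl u).m (fl v).m := (hF1 u).mloc hD hL hloc (fl v) (hF1 v)
    have h := hBI V (fl u) (fl v) hab k m n w L (fun j hj => by
        rw [← hprod]
        have := h1 j hj
        rw [hYF] at this
        rw [this]
        have h0 : F 0 = 0 := by rw [← hYF, map_zero]
        rw [h0]
        simp) h2 h3
    have h4 : ∀ j : ℕ, (prod (k + j) (fl u) (fl v)).m = Y (Y u (k + j) v) := by
      intro j
      rw [← hprod]
      rfl
    simp only [h4] at h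
    exact h

end

theorem main : S_BI → S_DONG → S_LIN → S_TCOV → S_CRE → S_GOD → S_REC := by
  intro hBI hD hL hT hC hGo V _ _ one T G h1 h2 h3 h4
  exact main_aux hBI hD hL hT hC hGo one T G h1 h2 h3 h4

end Pool.Agent.W959.VA.REC

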